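import Pool.Agent.Helper65.PAC.Roots

set_option autoImplicit false

namespace Pool.Agent.Helper65.PAC

open Finset Module Polynomial

variable {K : Type*} [Field K] {n : ℕ}

/-- Translation by `s x`, as a map to polynomials in `s`. -/
noncomputable def shift (x : Fin n → K) :
    MvPolynomial (Fin n) K →+* Polynomial (MvPolynomial (Fin n) K) :=
  MvPolynomial.eval₂Hom ((Polynomial.C).comp (MvPolynomial.C))
    (fun i => Polynomial.C (MvPolynomial.X i) + Polynomial.C (MvPolynomial.C (x i)) * Polynomial.X)

theorem eval_shift (x Q : Fin n → K) (s : K) (F : MvPolynomial (Fin n) K) :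
    Polynomial.eval s ((shift x F).map (MvPolynomial.eval Q)) =
      MvPolynomial.eval (s • x + Q) F := by
  have h : ((Polynomial.evalRingHom s).comp
      ((Polynomial.mapRingHom (MvPolynomial.eval Q)).comp (shift x))) =
      (MvPolynomial.eval (s • x + Q) : MvPolynomial (Fin n) K →+* K) := by
    apply MvPolynomial.ringHom_ext
    · intro r
      simp [shift]
    · intro i
      simp [shift]
      ring
  exact congrArg (fun f : MvPolynomial (Fin n) K →+* K => f F) h

/-- The shift extended to polynomials. -/
noncomputable def shiftP (x : Fin n → K) :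
    Polynomial (MvPolynomial (Fin n) K) →+* Polynomial (MvPolynomial (Fin n) K) :=
  Polynomial.eval₂RingHom (shift x) Polynomial.X

theorem shiftP_comp (x : Fin n → K) :
    (shiftP x).comp (shiftP (-x)) = RingHom.id (Polynomial (MvPolynomial (Fin n) K)) := by
  apply Polynomial.ringHom_ext'
  · apply MvPolynomial.ringHom_ext
    · intro r
      simp [shiftP, shift]
    · intro i
      simp [shiftP, shift, add_assoc]
      ring
  · simp [shiftP]

/-- The shift as a ring isomorphism. -/
noncomputable def shiftE (x : Fin n → K) :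
    Polynomial (MvPolynomial (Fin n) K) ≃+* Polynomial (MvPolynomial (Fin n) K) :=
  RingEquiv.ofRingHom (shiftP x) (shiftP (-x)) (shiftP_comp x)
    (by simpa using shiftP_comp (-x))

theorem shiftE_C (x : Fin n → K) (F : MvPolynomial (Fin n) K) :
    shiftE x (Polynomial.C F) = shift x F := by
  simp [shiftE, shiftP]

theorem shift_prime (x : Fin n → K) {F : MvPolynomial (Fin n) K} (hF : Irreducible F) :
    Prime (shift x F) := by
  rw [← shiftE_C]
  exact (MulEquiv.prime_iff (shiftE x)).mpr (Polynomial.prime_C_iff.mpr hF.prime)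

theorem shift_not_dvd (x : Fin n → K) {F G : MvPolynomial (Fin n) K} (h : ¬ F ∣ G) :
    ¬ shift x F ∣ shift x G := by
  rw [← shiftE_C, ← shiftE_C, map_dvd_iff]
  intro h'
  apply h
  have := (Polynomial.C_dvd_iff_dvd_coeff _ _).mp h' 0
  simpa using this

theorem bezout {R : Type*} [CommRing R] [IsDomain R] [UniqueFactorizationMonoid R]
    {p q : Polynomial R} (hp : Irreducible p) (hd : p.natDegree ≠ 0) (hq : ¬ p ∣ q) :
    ∃ (r : R) (A B : Polynomial R), r ≠ 0 ∧ A * p + B * q = Polynomial.C r := by
  let Kf := FractionRing R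
  have hprim : p.IsPrimitive := hp.isPrimitive hd
  have hirr : Irreducible (p.map (algebraMap R Kf)) :=
    (hprim.irreducible_iff_irreducible_map_fraction_map).mp hp
  have hnd : ¬ p.map (algebraMap R Kf) ∣ q.map (algebraMap R Kf) := fun h =>
    hq (hprim.dvd_of_fraction_map_dvd_fraction_map h)
  have hco : IsCoprime (p.map (algebraMap R Kf)) (q.map (algebraMap R Kf)) :=
    (hirr.coprime_iff_not_dvd).mpr hnd
  obtain ⟨a, b, hab⟩ := hco
  obtain ⟨c, c0, hc⟩ := IsLocalization.integerNormalization_spec (nonZeroDivisors R) a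
  obtain ⟨d, d0, hd'⟩ := IsLocalization.integerNormalization_spec (nonZeroDivisors R) b
  rw [Algebra.smul_def, Polynomial.algebraMap_apply] at hc hd'
  rw [mem_nonZeroDivisors_iff_ne_zero] at c0 d0
  refine ⟨c * d, Polynomial.C d * IsLocalization.integerNormalization (nonZeroDivisors R) a,
    Polynomial.C c * IsLocalization.integerNormalization (nonZeroDivisors R) b,
    mul_ne_zero c0 d0, ?_⟩
  apply Polynomial.map_injective (algebraMap R Kf) (IsFractionRing.injective _ _) _
  rw [Polynomial.map_add, Polynomial.map_mul, Polynomial.map_mul, Polynomial.map_mul,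
    Polynomial.map_mul, hc, hd', Polynomial.map_C, Polynomial.map_C, Polynomial.map_C, map_mul]
  simp only [Polynomial.C_mul]
  linear_combination (Polynomial.C (algebraMap R Kf c) * Polynomial.C (algebraMap R Kf d)) * hab

theorem exists_eval_ne_zero [Infinite K] {r : MvPolynomial (Fin n) K} (hr : r ≠ 0) :
    ∃ Q : Fin n → K, MvPolynomial.eval Q r ≠ 0 := by
  by_contra h
  push Not at h
  exact hr (MvPolynomial.funext (fun Q => by rw [h Q, map_zero]))

/-- The zeros of an irreducible form of degree five with one zero that is not a vertex are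
dense. -/
theorem dense_of_zero [Infinite K] (r1 : Rt K 1) (r2 : Rt K 2) (r3 : Rt K 3) (r4 : Rt K 4)
    {F G : MvPolynomial (Fin n) K} (hF : Irreducible F)
    (hF5 : (fun x : Fin n → K => MvPolynomial.eval x F) ∈ (lin K (Fin n → K)) ^ 5)
    (hFG : ¬ F ∣ G) (x : Fin n → K) (hx : MvPolynomial.eval x F = 0)
    (hv : ¬ ∀ y, MvPolynomial.eval (x + y) F = MvPolynomial.eval y F) :
    ∃ y : Fin n → K, MvPolynomial.eval y F = 0 ∧ MvPolynomial.eval y G ≠ 0 := by
  set P := shift x F with hP
  -- coefficients above 4 vanish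
  have hdeg4 : P.natDegree ≤ 4 := by
    rw [Polynomial.natDegree_le_iff_coeff_eq_zero]
    intro N hN
    by_contra hne
    obtain ⟨Q, hQ⟩ := exists_eval_ne_zero hne
    obtain ⟨c, -, -, -, h4, h5⟩ := expand 5 hF5 x
    have e : P.map (MvPolynomial.eval Q) = ∑ k ∈ range 5, Polynomial.C (c k Q) * Polynomial.X ^ k := by
      apply Polynomial.funext
      intro s
      rw [hP, eval_shift]
      have := h5 s Q
      rw [this, Finset.sum_range_succ, h4, Polynomial.eval_finsetSum]
      rw [hx, mul_zero, add_zero]
      refine Finset.sum_congr rfl fun k _ => ?_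
      simp only [Polynomial.eval_mul, Polynomial.eval_C, Polynomial.eval_pow, Polynomial.eval_X]
      ring
    have e2 := congrArg (fun p => Polynomial.coeff p N) e
    simp only [Polynomial.coeff_map, Polynomial.finsetSum_coeff] at e2
    rw [e2] at hQ
    apply hQ
    refine Finset.sum_eq_zero fun k hk => ?_
    rw [Polynomial.coeff_C_mul, Polynomial.coeff_X_pow]
    have : k < 5 := Finset.mem_range.mp hk
    have : N ≠ k := by omega
    simp [this]
  have hdeg0 : P.natDegree ≠ 0 := by
    intro h0
    apply hv
    intro y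
    obtain ⟨r, hr⟩ := Polynomial.natDegree_eq_zero.mp h0
    have e1 := eval_shift x y 1 F
    have e0 := eval_shift x y 0 F
    rw [← hP, ← hr] at e1 e0
    simp only [Polynomial.map_C, Polynomial.eval_C, one_smul, zero_smul, zero_add] at e1 e0
    rw [← e1, ← e0]
  have hprime : Prime P := shift_prime x hF
  obtain ⟨r, A, B, hr0, hAB⟩ := bezout hprime.irreducible hdeg0 (shift_not_dvd x hFG)
  have hlc : P.leadingCoeff ≠ 0 := Polynomial.leadingCoeff_ne_zero.mpr hprime.ne_zero
  obtain ⟨Q, hQ⟩ := exists_eval_ne_zero (mul_ne_zero hr0 hlc)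
  rw [map_mul] at hQ
  have hQr := left_ne_zero_of_mul hQ
  have hQl := right_ne_zero_of_mul hQ
  have hroot : ∃ s : K, Polynomial.eval s (P.map (MvPolynomial.eval Q)) = 0 := by
    have hnd : (P.map (MvPolynomial.eval Q)).natDegree = P.natDegree :=
      Polynomial.natDegree_map_of_leadingCoeff_ne_zero _ hQl
    have hRt : Rt K P.natDegree := by
      have : P.natDegree = 1 ∨ P.natDegree = 2 ∨ P.natDegree = 3 ∨ P.natDegree = 4 := by omega
      rcases this with h | h | h | h <;> rw [h] <;> assumption
    obtain ⟨s, hs⟩ := hRt (fun k => (P.map (MvPolynomial.eval Q)).coeff k) (by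
      rw [Polynomial.coeff_map]
      exact hQl)
    refine ⟨s, ?_⟩
    rw [Polynomial.eval_eq_sum_range, hnd, ← hs]
    refine Finset.sum_congr rfl fun k _ => ?_
    ring
  obtain ⟨s, hs⟩ := hroot
  refine ⟨s • x + Q, ?_, ?_⟩
  · rw [← eval_shift, ← hP, hs]
  · intro hG
    rw [← eval_shift] at hG
    have e := congrArg (fun p => Polynomial.eval s (p.map (MvPolynomial.eval Q))) hAB
    simp only [Polynomial.map_add, Polynomial.map_mul, Polynomial.eval_add, Polynomial.eval_mul,
      Polynomial.map_C, Polynomial.eval_C] at e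
    rw [hs, hG] at e
    simp only [mul_zero, add_zero] at e
    exact hQr e.symm

end Pool.Agent.Helper65.PAC
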