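import Mathlib

set_option autoImplicit false

namespace Pool.Agent.Helper65.PAC

open Finset Module

section Forms

variable (K : Type*) [Field K] (V : Type*) [AddCommGroup V] [Module K V]

/-- Linear functionals, as a space of functions. -/
def lin : Submodule K (V → K) :=
  LinearMap.range
    ({ toFun := fun l => (l : V → K)
       map_add' := fun _ _ => rfl
       map_smul' := fun _ _ => rfl } : (V →ₗ[K] K) →ₗ[K] (V → K))

variable {K V}

theorem mem_lin {g : V → K} : g ∈ lin K V ↔ ∃ l : V →ₗ[K] K, (l : V → K) = g := Iff.rfl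

theorem mem_lin_zero {g : V → K} (hg : g ∈ (lin K V) ^ 0) : ∃ c : K, g = fun _ => c := by
  rw [pow_zero, Submodule.mem_one] at hg
  obtain ⟨c, hc⟩ := hg
  exact ⟨c, hc.symm⟩

theorem const_mem (c : K) : (fun _ => c : V → K) ∈ (lin K V) ^ 0 := by
  rw [pow_zero, Submodule.mem_one]
  exact ⟨c, rfl⟩

/-- Taylor expansion along a direction. -/
theorem expand (d : ℕ) {g : V → K} (hg : g ∈ (lin K V) ^ d) (P : V) :
    ∃ c : ℕ → V → K, (∀ k, k ≤ d → c k ∈ (lin K V) ^ (d - k)) ∧ (∀ k, d < k → c k = 0) ∧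
      c 0 = g ∧ (c d = fun _ => g P) ∧
      ∀ (s : K) (Q : V), g (s • P + Q) = ∑ k ∈ range (d + 1), s ^ k * c k Q := by
  induction d generalizing g with
  | zero =>
    obtain ⟨a, rfl⟩ := mem_lin_zero hg
    refine ⟨fun k => if k = 0 then (fun _ => a) else 0, ?_, ?_, by simp, by simp, ?_⟩
    · intro k hk
      obtain rfl : k = 0 := by omega
      simpa using const_mem a
    · intro k hk
      simp [Nat.pos_iff_ne_zero.mp hk]
    · intro s Q
      simp
  | succ d ih =>
    rw [pow_succ] at hg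
    refine Submodule.mul_induction_on hg ?_ ?_
    · rintro m hm n hn
      obtain ⟨l, rfl⟩ := mem_lin.mp hn
      obtain ⟨c, h1, h2, h3, h4, h5⟩ := ih hm
      obtain ⟨c', hc0, hcs⟩ : ∃ c' : ℕ → V → K, c' 0 = (l : V → K) * c 0 ∧
          ∀ k, c' (k + 1) = l P • c k + (l : V → K) * c (k + 1) :=
        ⟨fun k => match k with
          | 0 => (l : V → K) * c 0
          | k + 1 => l P • c k + (l : V → K) * c (k + 1), rfl, fun _ => rfl⟩
      refine ⟨c', ?_, ?_, ?_, ?_, ?_⟩
      · intro k hk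
        cases k with
        | zero =>
          have := Submodule.mul_mem_mul (h1 0 (Nat.zero_le _)) hn
          rw [← pow_succ] at this
          rw [hc0]
          simp only [Nat.sub_zero] at this ⊢
          rwa [mul_comm] at this
        | succ k =>
          have hk' : k ≤ d := by omega
          have e1 : d + 1 - (k + 1) = d - k := by omega
          rw [e1, hcs]
          refine Submodule.add_mem _ (Submodule.smul_mem _ _ (h1 k hk')) ?_
          rcases Nat.lt_or_ge d (k + 1) with h | h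
          · rw [h2 _ h, mul_zero]; exact Submodule.zero_mem _
          · have := Submodule.mul_mem_mul (h1 (k + 1) h) hn
            rw [← pow_succ] at this
            have e2 : d - (k + 1) + 1 = d - k := by omega
            rw [e2, mul_comm] at this
            exact this
      · intro k hk
        cases k with
        | zero => omega
        | succ k =>
          rw [hcs, h2 k (by omega), h2 (k + 1) (by omega)]
          simp
      · rw [hc0, h3, mul_comm]
      · rw [hcs, h4, h2 (d + 1) (by omega)]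
        funext x
        simp [mul_comm]
      · intro s Q
        simp only [Pi.mul_apply, map_add, map_smul, smul_eq_mul]
        rw [h5 s Q, Finset.sum_range_succ' _ (d + 1), hc0]
        simp only [hcs, Pi.add_apply, Pi.smul_apply, Pi.mul_apply, smul_eq_mul, pow_zero, one_mul]
        have e3 : ∑ k ∈ range (d + 1), s ^ (k + 1) * (l P * c k Q + l Q * c (k + 1) Q)
            = s * l P * ∑ k ∈ range (d + 1), s ^ k * c k Q
              + l Q * ∑ k ∈ range (d + 1), s ^ (k + 1) * c (k + 1) Q := by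
          rw [Finset.mul_sum, Finset.mul_sum, ← Finset.sum_add_distrib]
          refine Finset.sum_congr rfl fun k _ => ?_
          ring
        rw [e3]
        have e4 : ∑ k ∈ range (d + 1), s ^ (k + 1) * c (k + 1) Q + c 0 Q
            = ∑ k ∈ range (d + 1), s ^ k * c k Q := by
          have h6 := Finset.sum_range_succ' (fun k => s ^ k * c k Q) (d + 1)
          have h7 := Finset.sum_range_succ (fun k => s ^ k * c k Q) (d + 1)
          rw [h7] at h6
          simp only [pow_zero, one_mul] at h6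
          rw [h2 (d + 1) (by omega)] at h6
          simp only [Pi.zero_apply, mul_zero, add_zero] at h6
          exact h6.symm
        have e5 : ∑ k ∈ range (d + 1), s ^ (k + 1) * c (k + 1) Q
            = ∑ k ∈ range (d + 1), s ^ k * c k Q - c 0 Q := by rw [← e4]; ring
        rw [e5]
        ring
    · rintro x y ⟨c, h1, h2, h3, h4, h5⟩ ⟨c', h1', h2', h3', h4', h5'⟩
      refine ⟨fun k => c k + c' k, fun k hk => Submodule.add_mem _ (h1 k hk) (h1' k hk),
        fun k hk => ?_, ?_, ?_, ?_⟩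
      · show c k + c' k = 0
        rw [h2 k hk, h2' k hk, add_zero]
      · show c 0 + c' 0 = x + y
        rw [h3, h3']
      · funext z
        simp [h4, h4']
      · intro s Q
        simp only [Pi.add_apply]
        rw [h5 s Q, h5' s Q, ← Finset.sum_add_distrib]
        refine Finset.sum_congr rfl fun k _ => ?_
        ring

/-- Homogeneity. -/
theorem hom (d : ℕ) {g : V → K} (hg : g ∈ (lin K V) ^ d) (t : K) (x : V) :
    g (t • x) = t ^ d * g x := by
  induction d generalizing g with
  | zero =>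
    obtain ⟨a, rfl⟩ := mem_lin_zero hg
    simp
  | succ d ih =>
    rw [pow_succ] at hg
    refine Submodule.mul_induction_on hg ?_ ?_
    · rintro m hm n hn
      obtain ⟨l, rfl⟩ := mem_lin.mp hn
      simp only [Pi.mul_apply, map_smul, smul_eq_mul, ih hm]
      ring
    · rintro x' y' h1 h2
      simp only [Pi.add_apply, h1, h2]
      ring

theorem restrict {U : Type*} [AddCommGroup U] [Module K U] (φ : U →ₗ[K] V) (d : ℕ) {g : V → K}
    (hg : g ∈ (lin K V) ^ d) : (fun x => g (φ x)) ∈ (lin K U) ^ d := by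
  induction d generalizing g with
  | zero =>
    obtain ⟨a, rfl⟩ := mem_lin_zero hg
    exact const_mem a
  | succ d ih =>
    rw [pow_succ] at hg
    refine Submodule.mul_induction_on hg ?_ ?_
    · rintro m hm n hn
      obtain ⟨l, rfl⟩ := mem_lin.mp hn
      rw [pow_succ]
      exact Submodule.mul_mem_mul (ih hm) ⟨l.comp φ, rfl⟩
    · rintro x' y' h1 h2
      exact Submodule.add_mem _ h1 h2

theorem mul_mem' {a b : ℕ} {g h : V → K} (hg : g ∈ (lin K V) ^ a) (hh : h ∈ (lin K V) ^ b) :
    g * h ∈ (lin K V) ^ (a + b) := by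
  rw [pow_add]
  exact Submodule.mul_mem_mul hg hh

/-- Every polynomial with formal degree `d` has a root. -/
def Rt (K : Type*) [Field K] (d : ℕ) : Prop :=
  ∀ c : ℕ → K, c d ≠ 0 → ∃ s : K, ∑ k ∈ range (d + 1), s ^ k * c k = 0

/-- A form of degree `d` has a nontrivial zero in the plane spanned by two vectors. -/
theorem zero_two {d : ℕ} (hd : Rt K d) {g : V → K} (hg : g ∈ (lin K V) ^ d) {u v : V}
    (huv : ∀ s t : K, s • u + t • v = 0 → s = 0 ∧ t = 0) :
    ∃ s t : K, s • u + t • v ≠ 0 ∧ g (s • u + t • v) = 0 := by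
  by_cases hu : g u = 0
  · refine ⟨1, 0, fun h => ?_, ?_⟩
    · exact one_ne_zero (huv 1 0 h).1
    · simpa using hu
  · obtain ⟨c, h1, h2, h3, h4, h5⟩ := expand d hg u
    obtain ⟨s, hs⟩ := hd (fun k => c k v) (by simp [h4, hu])
    refine ⟨s, 1, fun h => one_ne_zero (huv s 1 h).2, ?_⟩
    rw [one_smul, h5 s v]
    exact hs

variable [FiniteDimensional K V]

theorem exists_indep (h : 2 ≤ finrank K V) :
    ∃ u v : V, ∀ s t : K, s • u + t • v = 0 → s = 0 ∧ t = 0 := by
  let b := finBasis K V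
  refine ⟨b ⟨0, by omega⟩, b ⟨1, by omega⟩, fun s t hst => ?_⟩
  have hne : (⟨0, by omega⟩ : Fin (finrank K V)) ≠ ⟨1, by omega⟩ := by simp
  have h1 := congrArg (fun x => b.repr x ⟨0, by omega⟩) hst
  have h2 := congrArg (fun x => b.repr x ⟨1, by omega⟩) hst
  simp at h1 h2
  exact ⟨h1, h2⟩

theorem finrank_ker_le (l : V →ₗ[K] K) : finrank K V ≤ finrank K (LinearMap.ker l) + 1 := by
  have h := LinearMap.finrank_range_add_finrank_ker l
  have h2 : finrank K (LinearMap.range l) ≤ 1 := by
    simpa using Submodule.finrank_le (LinearMap.range l)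
  omega

theorem exists_fun (u : V) (hu : u ≠ 0) : ∃ φ : V →ₗ[K] K, φ u = 1 := by
  obtain ⟨φ, hφ⟩ : ∃ φ : V →ₗ[K] K, φ u ≠ 0 := by
    by_contra h
    push Not at h
    exact hu ((Module.forall_dual_apply_eq_zero_iff K u).mp h)
  exact ⟨(φ u)⁻¹ • φ, by simp [hφ]⟩

/-- Subspaces of the kernels of two functionals are large. -/
theorem finrank_inf_ker (l φ : V →ₗ[K] K) :
    finrank K V ≤ finrank K (LinearMap.ker (l.prod φ)) + 2 := by
  have h := LinearMap.finrank_range_add_finrank_ker (l.prod φ)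
  have h2 : finrank K (LinearMap.range (l.prod φ)) ≤ 2 := by
    have := Submodule.finrank_le (LinearMap.range (l.prod φ))
    simpa using this
  omega

/-- A quadratic form in four variables vanishes on a plane. -/
theorem quad_four (r2 : Rt K 2) (hV : 4 ≤ finrank K V) {q : V → K} (hq : q ∈ (lin K V) ^ 2) :
    ∃ u v : V, (∀ s t : K, s • u + t • v = 0 → s = 0 ∧ t = 0) ∧
      ∀ s t : K, q (s • u + t • v) = 0 := by
  obtain ⟨a, b, hab⟩ := exists_indep (K := K) (V := V) (by omega)
  obtain ⟨s0, t0, hu0, hqu⟩ := zero_two r2 hq hab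
  generalize s0 • a + t0 • b = u at hu0 hqu
  obtain ⟨c, h1, -, h3, h4, h5⟩ := expand 2 hq u
  obtain ⟨l, hl⟩ := mem_lin.mp (by simpa using h1 1 (by norm_num))
  obtain ⟨φ, hφ⟩ := exists_fun (K := K) u hu0
  have hW := finrank_inf_ker l φ
  set W := LinearMap.ker (l.prod φ) with hWdef
  obtain ⟨a', b', hab'⟩ := exists_indep (K := K) (V := W) (by omega)
  obtain ⟨s1, t1, hv0, hqv⟩ := zero_two r2 (restrict W.subtype 2 hq) hab'
  generalize s1 • a' + t1 • b' = v at hv0 hqv
  have hvW : (l v = 0) ∧ (φ v = 0) := by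
    have h : (l.prod φ) (v : V) = 0 := LinearMap.mem_ker.mp v.2
    exact ⟨congrArg Prod.fst h, congrArg Prod.snd h⟩
  have hq' : q (v : V) = 0 := hqv
  refine ⟨u, v, fun s t hst => ?_, fun s t => ?_⟩
  · have e := congrArg φ hst
    rw [map_add, map_smul, map_smul, hφ, hvW.2, map_zero] at e
    simp at e
    refine ⟨e, ?_⟩
    rw [e, zero_smul, zero_add, smul_eq_zero] at hst
    rcases hst with h | h
    · exact h
    · exact absurd (by exact_mod_cast h) hv0
  · rw [h5, Finset.sum_range_succ, Finset.sum_range_succ, Finset.sum_range_succ, h3, h4, ← hl]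
    simp only [Finset.range_zero, Finset.sum_empty, hqu, map_smul, hvW.1]
    rw [hom 2 hq, hq']
    simp

/-- A cubic form in six variables vanishes on a plane. -/
theorem cubic_six (r2 : Rt K 2) (r3 : Rt K 3) (hV : 6 ≤ finrank K V) {g : V → K}
    (hg : g ∈ (lin K V) ^ 3) :
    ∃ u v : V, (∀ s t : K, s • u + t • v = 0 → s = 0 ∧ t = 0) ∧
      ∀ s t : K, g (s • u + t • v) = 0 := by
  obtain ⟨a, b, hab⟩ := exists_indep (K := K) (V := V) (by omega)
  obtain ⟨s0, t0, hu0, hgu⟩ := zero_two r3 hg hab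
  generalize s0 • a + t0 • b = u at hu0 hgu
  obtain ⟨c, h1, -, h3, h4, h5⟩ := expand 3 hg u
  obtain ⟨l, hl⟩ := mem_lin.mp (by simpa using h1 2 (by norm_num))
  have hq : c 1 ∈ (lin K V) ^ 2 := h1 1 (by norm_num)
  obtain ⟨φ, hφ⟩ := exists_fun (K := K) u hu0
  have hW := finrank_inf_ker l φ
  set W := LinearMap.ker (l.prod φ) with hWdef
  obtain ⟨w1, w2, hw, hqw⟩ := quad_four (V := W) r2 (by omega) (restrict W.subtype 2 hq)
  obtain ⟨s1, t1, hv0, hgv⟩ := zero_two r3 (restrict W.subtype 3 hg) hw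
  have hqv := hqw s1 t1
  generalize s1 • w1 + t1 • w2 = v at hv0 hgv hqv
  have hvW : (l v = 0) ∧ (φ v = 0) := by
    have h : (l.prod φ) (v : V) = 0 := LinearMap.mem_ker.mp v.2
    exact ⟨congrArg Prod.fst h, congrArg Prod.snd h⟩
  have hg' : g (v : V) = 0 := hgv
  have hq' : c 1 (v : V) = 0 := hqv
  refine ⟨u, v, fun s t hst => ?_, fun s t => ?_⟩
  · have e := congrArg φ hst
    rw [map_add, map_smul, map_smul, hφ, hvW.2, map_zero] at e
    simp at e
    refine ⟨e, ?_⟩
    rw [e, zero_smul, zero_add, smul_eq_zero] at hst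
    rcases hst with h | h
    · exact h
    · exact absurd (by exact_mod_cast h) hv0
  · rw [h5, Finset.sum_range_succ, Finset.sum_range_succ, Finset.sum_range_succ,
      Finset.sum_range_succ, h3, h4, ← hl]
    simp only [Finset.range_zero, Finset.sum_empty, hgu, map_smul, hvW.1]
    rw [hom 3 hg, hom 2 hq, hg', hq']
    simp

/-- De Moivre's quintic is solvable. -/
theorem de_moivre [CharZero K] (r2 : Rt K 2) (r5 : ∀ a : K, ∃ x : K, x ^ 5 = a) (a b : K) :
    ∃ s : K, s ^ 5 + a * s ^ 3 + a ^ 2 / 5 * s + b = 0 := by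
  by_cases h0 : a = 0 ∧ b = 0
  · exact ⟨0, by simp [h0.2]⟩
  obtain ⟨z, hz, hz0⟩ : ∃ z : K, z ^ 2 + b * z - (a / 5) ^ 5 = 0 ∧ z ≠ 0 := by
    by_cases ha : a = 0
    · have hb : b ≠ 0 := fun h => h0 ⟨ha, h⟩
      exact ⟨-b, by rw [ha]; ring, neg_ne_zero.mpr hb⟩
    · obtain ⟨z, hz⟩ := r2 (fun k => if k = 0 then -(a / 5) ^ 5 else if k = 1 then b else 1)
        (by simp)
      rw [Finset.sum_range_succ, Finset.sum_range_succ, Finset.sum_range_succ] at hz
      simp at hz
      refine ⟨z, by linear_combination hz, fun h => ?_⟩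
      rw [h] at hz
      simp at hz
      exact ha hz
  obtain ⟨y, hy⟩ := r5 z
  have hy0 : y ≠ 0 := by
    rintro rfl
    apply hz0
    rw [← hy]
    simp
  refine ⟨y - a / (5 * y), ?_⟩
  rw [← hy] at hz
  have h5 : (5 : K) ≠ 0 := by norm_num
  have e : y ^ 5 * ((y - a / (5 * y)) ^ 5 + a * (y - a / (5 * y)) ^ 3
      + a ^ 2 / 5 * (y - a / (5 * y)) + b) = (y ^ 5) ^ 2 + b * y ^ 5 - (a / 5) ^ 5 := by
    field_simp
    ring
  rw [hz] at e
  exact (mul_eq_zero.mp e).resolve_left (pow_ne_zero _ hy0)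

/-- A quintic form in seven variables has a nontrivial zero. -/
theorem quintic_seven [CharZero K] (r2 : Rt K 2) (r3 : Rt K 3) (r4 : Rt K 4)
    (r5 : ∀ a : K, ∃ x : K, x ^ 5 = a) (hV : 7 ≤ finrank K V) {f : V → K}
    (hf : f ∈ (lin K V) ^ 5) : ∃ x : V, x ≠ 0 ∧ f x = 0 := by
  obtain ⟨P, b, hab⟩ := exists_indep (K := K) (V := V) (by omega)
  have hP0 : P ≠ 0 := fun h => one_ne_zero (hab 1 0 (by simp [h])).1
  by_cases hfP : f P = 0
  · exact ⟨P, hP0, hfP⟩
  obtain ⟨c, h1, -, h3, h4, h5⟩ := expand 5 hf P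
  obtain ⟨l, hl⟩ := mem_lin.mp (by simpa using h1 4 (by norm_num))
  have hc2 : c 2 ∈ (lin K V) ^ 3 := h1 2 (by norm_num)
  have hc3 : c 3 ∈ (lin K V) ^ 2 := h1 3 (by norm_num)
  have hc1 : c 1 ∈ (lin K V) ^ 4 := h1 1 (by norm_num)
  have hh : (5 * f P) • c 1 - c 3 * c 3 ∈ (lin K V) ^ 4 :=
    Submodule.sub_mem _ (Submodule.smul_mem _ _ hc1) (mul_mem' (a := 2) (b := 2) hc3 hc3)
  -- the linear coefficient at `P`
  have hlP : l P = 5 * f P := by
    have key : ∀ s : K, (s + 1) ^ 5 * f P = f P + s * c 1 P + s ^ 2 * c 2 P + s ^ 3 * c 3 P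
        + s ^ 4 * l P + s ^ 5 * f P := by
      intro s
      have e := h5 s P
      have e2 : s • P + P = (s + 1) • P := by rw [add_smul, one_smul]
      rw [e2, hom 5 hf, Finset.sum_range_succ, Finset.sum_range_succ, Finset.sum_range_succ,
        Finset.sum_range_succ, Finset.sum_range_succ, Finset.sum_range_succ, h3, h4, ← hl] at e
      rw [e]
      simp
    have k1 := key 1
    have k2 := key (-1)
    have k3 := key 2
    have k4 := key (-2)
    have e : (24 : K) * (l P - 5 * f P) = 0 := by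
      linear_combination 4 * k1 + 4 * k2 - k3 - k4
    have := (mul_eq_zero.mp e).resolve_left (by norm_num)
    linear_combination this
  have hW := finrank_ker_le l
  set W := LinearMap.ker l with hWdef
  obtain ⟨w1, w2, hw, hgw⟩ := cubic_six (V := W) r2 r3 (by omega) (restrict W.subtype 3 hc2)
  obtain ⟨s1, t1, hv0, hhv⟩ := zero_two r4 (restrict W.subtype 4 hh) hw
  have hgv := hgw s1 t1
  generalize s1 • w1 + t1 • w2 = Q at hv0 hgv hhv
  have hlQ : l Q = 0 := LinearMap.mem_ker.mp Q.2
  have hgv' : c 2 (Q : V) = 0 := hgv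
  have hhv' : 5 * f P * c 1 (Q : V) - c 3 (Q : V) * c 3 (Q : V) = 0 := hhv
  obtain ⟨s, hs⟩ := de_moivre r2 r5 (c 3 (Q : V) / f P) (f (Q : V) / f P)
  refine ⟨s • P + Q, fun h => ?_, ?_⟩
  · have e := congrArg l h
    rw [map_add, map_smul, hlQ, map_zero, hlP, add_zero, smul_eq_mul] at e
    have hs0 : s = 0 := by
      rcases mul_eq_zero.mp e with h' | h'
      · exact h'
      · exact absurd h' (mul_ne_zero (by norm_num) hfP)
    rw [hs0, zero_smul, zero_add] at h
    exact hv0 (by exact_mod_cast h)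
  · rw [h5, Finset.sum_range_succ, Finset.sum_range_succ, Finset.sum_range_succ,
      Finset.sum_range_succ, Finset.sum_range_succ, Finset.sum_range_succ, h3, h4, ← hl, hgv', hlQ]
    simp only [Finset.range_zero, Finset.sum_empty]
    have hc1' : c 1 (Q : V) = c 3 (Q : V) ^ 2 / (5 * f P) := by
      have : (5 : K) ≠ 0 := by norm_num
      field_simp
      linear_combination hhv'
    rw [hc1']
    have e : f P * (s ^ 5 + c 3 (Q : V) / f P * s ^ 3 + (c 3 (Q : V) / f P) ^ 2 / 5 * s
        + f (Q : V) / f P) = 0 := by rw [hs, mul_zero]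
    refine Eq.trans ?_ e
    have : (5 : K) ≠ 0 := by norm_num
    simp only [pow_zero, pow_one, one_mul, mul_zero, zero_add, add_zero]
    field_simp
    ring

end Forms

end Pool.Agent.Helper65.PAC
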