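import Pool.Agent.Helper65.PAC.Forms

set_option autoImplicit false

namespace Pool.Agent.Helper65.PAC

open Finset Module

variable {K : Type*} [Field K] [CharZero K]

theorem quadratic (R2 : ∀ a : K, ∃ x : K, x ^ 2 = a) (b c : K) :
    ∃ x : K, x ^ 2 + b * x + c = 0 := by
  obtain ⟨y, hy⟩ := R2 (b ^ 2 / 4 - c)
  exact ⟨y - b / 2, by linear_combination hy⟩

theorem cubic (R2 : ∀ a : K, ∃ x : K, x ^ 2 = a) (R3 : ∀ a : K, ∃ x : K, x ^ 3 = a) (b c d : K) :
    ∃ x : K, x ^ 3 + b * x ^ 2 + c * x + d = 0 := by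
  have main : ∀ p q : K, ∃ y : K, y ^ 3 + p * y + q = 0 := by
    intro p q
    by_cases h0 : p = 0 ∧ q = 0
    · exact ⟨0, by simp [h0.2]⟩
    obtain ⟨z, hz, hz0⟩ : ∃ z : K, z ^ 2 + q * z - (p / 3) ^ 3 = 0 ∧ z ≠ 0 := by
      by_cases hp : p = 0
      · have hq : q ≠ 0 := fun h => h0 ⟨hp, h⟩
        exact ⟨-q, by rw [hp]; ring, neg_ne_zero.mpr hq⟩
      · obtain ⟨z, hz⟩ := quadratic R2 q (-(p / 3) ^ 3)
        refine ⟨z, by linear_combination hz, fun h => ?_⟩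
        rw [h] at hz
        simp at hz
        exact hp hz
    obtain ⟨y, hy⟩ := R3 z
    have hy0 : y ≠ 0 := by
      rintro rfl
      apply hz0
      rw [← hy]
      simp
    refine ⟨y - p / (3 * y), ?_⟩
    rw [← hy] at hz
    have h3 : (3 : K) ≠ 0 := by norm_num
    have e : y ^ 3 * ((y - p / (3 * y)) ^ 3 + p * (y - p / (3 * y)) + q)
        = (y ^ 3) ^ 2 + q * y ^ 3 - (p / 3) ^ 3 := by
      field_simp
      ring
    rw [hz] at e
    exact (mul_eq_zero.mp e).resolve_left (pow_ne_zero _ hy0)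
  obtain ⟨y, hy⟩ := main (c - b ^ 2 / 3) (d - b * c / 3 + 2 * b ^ 3 / 27)
  refine ⟨y - b / 3, ?_⟩
  linear_combination hy

theorem quartic (R2 : ∀ a : K, ∃ x : K, x ^ 2 = a) (R3 : ∀ a : K, ∃ x : K, x ^ 3 = a)
    (b c d e : K) : ∃ x : K, x ^ 4 + b * x ^ 3 + c * x ^ 2 + d * x + e = 0 := by
  have main : ∀ p q r : K, ∃ y : K, y ^ 4 + p * y ^ 2 + q * y + r = 0 := by
    intro p q r
    by_cases hq : q = 0
    · obtain ⟨w, hw⟩ := quadratic R2 p r
      obtain ⟨y, hy⟩ := R2 w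
      refine ⟨y, ?_⟩
      rw [← hy] at hw
      rw [hq]
      linear_combination hw
    · obtain ⟨t, ht⟩ := cubic R2 R3 (2 * p) (p ^ 2 - 4 * r) (-q ^ 2)
      have ht0 : t ≠ 0 := by
        rintro rfl
        apply hq
        have : q ^ 2 = 0 := by linear_combination -ht
        exact pow_eq_zero_iff (two_ne_zero) |>.mp this
      obtain ⟨α, hα⟩ := R2 t
      have hα0 : α ≠ 0 := by
        rintro rfl
        apply ht0
        rw [← hα]
        simp
      obtain ⟨y, hy⟩ := quadratic R2 α ((p + α ^ 2 - q / α) / 2)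
      refine ⟨y, ?_⟩
      have h2 : (2 : K) ≠ 0 := by norm_num
      have key : α ^ 2 * (y ^ 4 + p * y ^ 2 + q * y + r)
          = α ^ 2 * (y ^ 2 + α * y + (p + α ^ 2 - q / α) / 2)
            * (y ^ 2 - α * y + (p + α ^ 2 + q / α) / 2)
            - ((α ^ 2) ^ 3 + 2 * p * (α ^ 2) ^ 2 + (p ^ 2 - 4 * r) * α ^ 2 + -q ^ 2) / 4 := by
        field_simp
        ring
      rw [hα] at key
      rw [ht, ← hα, hy] at key
      have : α ^ 2 * (y ^ 4 + p * y ^ 2 + q * y + r) = 0 := by rw [key]; ring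
      exact (mul_eq_zero.mp this).resolve_left (pow_ne_zero _ hα0)
  obtain ⟨y, hy⟩ := main (c - 3 * b ^ 2 / 8) (d - b * c / 2 + b ^ 3 / 8)
    (e - b * d / 4 + b ^ 2 * c / 16 - 3 * b ^ 4 / 256)
  refine ⟨y - b / 4, ?_⟩
  linear_combination hy

theorem rt2 (R2 : ∀ a : K, ∃ x : K, x ^ 2 = a) : Rt K 2 := by
  intro c hc
  obtain ⟨x, hx⟩ := quadratic R2 (c 1 / c 2) (c 0 / c 2)
  refine ⟨x, ?_⟩
  rw [sum_range_succ, sum_range_succ, sum_range_succ]
  field_simp at hx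
  simp only [range_zero, sum_empty]
  linear_combination hx

theorem rt3 (R2 : ∀ a : K, ∃ x : K, x ^ 2 = a) (R3 : ∀ a : K, ∃ x : K, x ^ 3 = a) : Rt K 3 := by
  intro c hc
  obtain ⟨x, hx⟩ := cubic R2 R3 (c 2 / c 3) (c 1 / c 3) (c 0 / c 3)
  refine ⟨x, ?_⟩
  rw [sum_range_succ, sum_range_succ, sum_range_succ, sum_range_succ]
  field_simp at hx
  simp only [range_zero, sum_empty]
  linear_combination hx

theorem rt4 (R2 : ∀ a : K, ∃ x : K, x ^ 2 = a) (R3 : ∀ a : K, ∃ x : K, x ^ 3 = a) : Rt K 4 := by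
  intro c hc
  obtain ⟨x, hx⟩ := quartic R2 R3 (c 3 / c 4) (c 2 / c 4) (c 1 / c 4) (c 0 / c 4)
  refine ⟨x, ?_⟩
  rw [sum_range_succ, sum_range_succ, sum_range_succ, sum_range_succ, sum_range_succ]
  field_simp at hx
  simp only [range_zero, sum_empty]
  linear_combination hx

end Pool.Agent.Helper65.PAC
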