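import Mathlib

set_option autoImplicit false

namespace Pool.Agent.Helper65.PAC

open Polynomial IntermediateField

variable {F E : Type*} [Field F] [Field E] [Algebra F E]

/-- The Galois group of the minimal polynomial is solvable. -/
def Sol (F : Type*) {E : Type*} [Field F] [Field E] [Algebra F E] (x : E) : Prop :=
  Group.IsSolvable (minpoly F x).Gal

variable [Algebra.IsAlgebraic F E]

theorem integ (x : E) : IsIntegral F x := (Algebra.IsAlgebraic.isAlgebraic x).isIntegral

theorem sol_rad {x : E} {n : ℕ} (hn : n ≠ 0) (hα : Sol F (x ^ n)) : Sol F x := by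
  let p := minpoly F (x ^ n)
  have hp : p.comp (X ^ n) ≠ 0 := by
    intro h
    rcases comp_eq_zero_iff.mp h with h' | h'
    · exact minpoly.ne_zero (integ _) h'
    · exact hn (by rw [← @natDegree_C F, ← h'.2, natDegree_X_pow])
  apply gal_isSolvable_of_splits
  · exact ⟨(SplittingField.splits (p.comp (X ^ n))).of_dvd (map_ne_zero hp)
      ((map_dvd_map' _).mpr (minpoly.dvd F x (by rw [aeval_comp, aeval_X_pow, minpoly.aeval])))⟩
  · refine gal_isSolvable_tower p (p.comp (X ^ n)) ?_ hα ?_
    · exact Gal.splits_in_splittingField_of_comp _ _ (by rwa [natDegree_X_pow])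
    · obtain ⟨s, hs⟩ := splits_iff_exists_multiset.1 (SplittingField.splits p)
      rw [map_comp, Polynomial.map_pow, map_X, hs, mul_comp, C_comp]
      apply gal_mul_isSolvable (gal_C_isSolvable _)
      rw [multiset_prod_comp]
      apply gal_prod_isSolvable
      intro q hq
      rw [Multiset.mem_map] at hq
      obtain ⟨q, hq, rfl⟩ := hq
      rw [Multiset.mem_map] at hq
      obtain ⟨q, _, rfl⟩ := hq
      rw [sub_comp, X_comp, C_comp]
      exact gal_X_pow_sub_C_isSolvable n q

theorem sol_step {x y z : E} (hx' : Sol F x) (hy' : Sol F y)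
    (hz' : z ∈ F⟮x, y⟯) : Sol F z := by
  let p := minpoly F x
  let q := minpoly F y
  have hpq := SplittingField.splits (p * q)
  rw [Polynomial.map_mul,
    splits_mul (map_ne_zero (minpoly.ne_zero (integ x)))
      (map_ne_zero (minpoly.ne_zero (integ y)))] at hpq
  have f : ↥F⟮x, y⟯ →ₐ[F] (p * q).SplittingField :=
    Classical.choice <| nonempty_algHom_adjoin_of_splits <| by
      rintro a (rfl | rfl)
      · exact ⟨integ _, hpq.1⟩
      · exact ⟨integ _, hpq.2⟩
  have key : minpoly F z = minpoly F (f ⟨z, hz'⟩) := by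
    refine minpoly.eq_of_irreducible_of_monic
      (minpoly.irreducible (integ z)) ?_
      (minpoly.monic (integ z))
    rw [aeval_algHom_apply, map_eq_zero]
    apply (algebraMap (↥F⟮x, y⟯) (E)).injective
    simp [← aeval_algebraMap_apply]
  unfold Sol
  rw [key]
  refine gal_isSolvable_of_splits ⟨Normal.splits ?_ (f ⟨z, hz'⟩)⟩ (gal_mul_isSolvable hx' hy')
  infer_instance

theorem sol_base (a : F) : Sol F (algebraMap F (E) a) := by
  unfold Sol
  rw [minpoly.eq_X_sub_C (E)]
  exact gal_X_sub_C_isSolvable a

/-- The set of elements with solvable Galois group, as an intermediate field. -/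
def solField (F E : Type*) [Field F] [Field E] [Algebra F E] [Algebra.IsAlgebraic F E] :
    IntermediateField F E where
  carrier := {x | Sol F x}
  add_mem' := fun {a b} ha hb => sol_step ha hb
    (add_mem (subset_adjoin _ _ (by simp)) (subset_adjoin _ _ (by simp)))
  mul_mem' := fun {a b} ha hb => sol_step ha hb
    (mul_mem (subset_adjoin _ _ (by simp)) (subset_adjoin _ _ (by simp)))
  algebraMap_mem' := sol_base
  inv_mem' := fun x hx => sol_step hx hx (inv_mem (subset_adjoin _ _ (by simp)))

theorem mem_solField {x : E} : x ∈ solField F E ↔ Sol F x := Iff.rfl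

theorem le_solField [IsAlgClosed E] (L : IntermediateField F (E))
    (hL : FiniteDimensional F L ∧ IsGalois F L ∧ Group.IsSolvable (L ≃ₐ[F] L)) : L ≤ solField F E := by
  obtain ⟨h1, h2, h3⟩ := hL
  intro x hx
  rw [mem_solField]
  unfold Sol
  have e : minpoly F x = minpoly F (⟨x, hx⟩ : L) := by
    have := minpoly.algebraMap_eq (A := F) (B := L) (B' := E)
      (algebraMap L (E)).injective ⟨x, hx⟩
    exact this
  rw [e]
  have hsp : ((minpoly F (⟨x, hx⟩ : L)).map (algebraMap F L)).Splits :=
    Normal.splits (IsGalois.to_normal) _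
  have : Fact (((minpoly F (⟨x, hx⟩ : L)).map (algebraMap F L)).Splits) := ⟨hsp⟩
  exact Group.isSolvable_of_surjective (Gal.restrict_surjective (minpoly F (⟨x, hx⟩ : L)) L)

theorem solField_le [CharZero F] [IsAlgClosed E] {x : E} (hx : Sol F x) :
    ∃ L : IntermediateField F (E),
      (FiniteDimensional F L ∧ IsGalois F L ∧ Group.IsSolvable (L ≃ₐ[F] L)) ∧ x ∈ L := by
  set p := minpoly F x with hp
  have hs : (p.map (algebraMap F (E))).Splits := IsAlgClosed.splits _
  have := adjoin_rootSet_isSplittingField hs
  refine ⟨adjoin F (p.rootSet (E)), ⟨?_, ?_, ?_⟩, ?_⟩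
  · exact IsSplittingField.finiteDimensional _ p
  · exact IsGalois.of_separable_splitting_field (minpoly.irreducible (integ x)).separable
  · have e := (IsSplittingField.algEquiv (adjoin F (p.rootSet (E))) p).autCongr
    have hx' : Group.IsSolvable (p.SplittingField ≃ₐ[F] p.SplittingField) := hx
    exact Group.isSolvable_of_isSolvable_injective (f := e.toMonoidHom) e.injective
  · apply subset_adjoin
    rw [mem_rootSet]
    exact ⟨minpoly.ne_zero (integ x), minpoly.aeval _ _⟩

theorem solField_eq [CharZero F] [IsAlgClosed E] : solField F E = (⨆ (L : IntermediateField F (E))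
    (_ : FiniteDimensional F L ∧ IsGalois F L ∧ Group.IsSolvable (L ≃ₐ[F] L)), L) := by
  apply le_antisymm
  · intro x hx
    obtain ⟨L, hL, hxL⟩ := solField_le (mem_solField.mp hx)
    exact (le_iSup₂ (f := fun (L : IntermediateField F (E))
      (_ : FiniteDimensional F L ∧ IsGalois F L ∧ Group.IsSolvable (L ≃ₐ[F] L)) => L) L hL) hxL
  · exact iSup₂_le le_solField

theorem rad_solField [IsAlgClosed E] (n : ℕ) (hn : n ≠ 0) (a : solField F E) : ∃ x : solField F E, x ^ n = a := by
  obtain ⟨y, hy⟩ := IsAlgClosed.exists_pow_nat_eq (a : E) (Nat.pos_of_ne_zero hn)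
  have hy' : Sol F y := by
    apply sol_rad hn
    rw [hy]
    exact mem_solField.mp a.2
  exact ⟨⟨y, hy'⟩, Subtype.ext (by simpa using hy)⟩

end Pool.Agent.Helper65.PAC
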